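import Pool.Agent.Helper22_QC.Stmt

/-! Modules LIN1 and LIN2: monotone linear maps. -/

namespace Helper22QC

namespace H44QC

open Metric Set Filter Topology MeasureTheory

theorem key {n : ℕ} {δ : ℝ} (L : E n →L[ℝ] E n)
    (hL : ∀ h, δ * (‖L h‖ * ‖h‖) ≤ inner ℝ (L h) h) (h k : E n) (s : ℝ) :
    δ * (‖L h + s • L k‖ * ‖h + s • k‖ + ‖L h - s • L k‖ * ‖h - s • k‖) ≤
      2 * inner ℝ (L h) h + 2 * s ^ 2 * inner ℝ (L k) k := by
  have h1 := hL (h + s • k)
  have h2 := hL (h - s • k)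
  simp only [map_add, map_sub, map_smul] at h1 h2
  have e1 : inner ℝ (L h + s • L k) (h + s • k) + inner ℝ (L h - s • L k) (h - s • k) =
      2 * inner ℝ (L h) h + 2 * s ^ 2 * inner ℝ (L k) k := by
    simp only [inner_add_left, inner_add_right, inner_sub_left, inner_sub_right,
      real_inner_smul_left, real_inner_smul_right]
    ring
  linarith

theorem linKer : LinKerStmt := by
  intro n δ hδ L hL h hh hLh
  ext1 k
  by_contra hk
  have hk' : 0 < ‖L k‖ := norm_pos_iff.mpr hk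
  have hh' : 0 < ‖h‖ := norm_pos_iff.mpr hh
  have h1 : ∀ s : ℝ, 0 < s → δ * (‖L k‖ * ‖h‖) ≤ s * inner ℝ (L k) k := by
    intro s hs
    have h2 := key L hL h k s
    rw [hLh] at h2
    simp only [zero_add, zero_sub, norm_neg, inner_zero_left, mul_zero, norm_smul,
      Real.norm_eq_abs, abs_of_pos hs] at h2
    have h3 : 2 * ‖h‖ ≤ ‖h + s • k‖ + ‖h - s • k‖ := by
      have : (2 : ℝ) • h = (h + s • k) + (h - s • k) := by
        rw [two_smul]; abel
      have h4 := norm_add_le (h + s • k) (h - s • k)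
      rw [← this, norm_smul] at h4
      simpa using h4
    have h5 : δ * (s * ‖L k‖ * (2 * ‖h‖)) ≤ 2 * s ^ 2 * inner ℝ (L k) k := by
      refine le_trans ?_ h2
      have : δ * (s * ‖L k‖ * ‖h + s • k‖ + s * ‖L k‖ * ‖h - s • k‖) =
          δ * (s * ‖L k‖ * (‖h + s • k‖ + ‖h - s • k‖)) := by ring
      rw [this]
      gcongr
    have h6 : (2 * s) * (δ * (‖L k‖ * ‖h‖)) ≤ (2 * s) * (s * inner ℝ (L k) k) := by
      calc (2 * s) * (δ * (‖L k‖ * ‖h‖)) = δ * (s * ‖L k‖ * (2 * ‖h‖)) := by ring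
        _ ≤ _ := h5
        _ = _ := by ring
    exact le_of_mul_le_mul_left h6 (by positivity)
  have hp : 0 < δ * (‖L k‖ * ‖h‖) := by positivity
  have h7 := h1 1 one_pos
  have hq : 0 < inner ℝ (L k) k := by linarith
  have h8 := h1 (δ * (‖L k‖ * ‖h‖) / (2 * inner ℝ (L k) k)) (by positivity)
  have h9 : δ * (‖L k‖ * ‖h‖) / (2 * inner ℝ (L k) k) * inner ℝ (L k) k =
      δ * (‖L k‖ * ‖h‖) / 2 := by
    field_simp
  rw [h9] at h8
  linarith

theorem lower {n : ℕ} {δ : ℝ} (hδ : 0 < δ) (hδ1 : δ ≤ 1) (L : E n →L[ℝ] E n)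
    (hL : ∀ h, δ * (‖L h‖ * ‖h‖) ≤ inner ℝ (L h) h) (h k : E n) (hh : ‖h‖ = 1)
    (hk : ‖k‖ = 1) : δ ^ 2 / 8 * ‖L k‖ ≤ ‖L h‖ := by
  have hs : 0 < δ / 4 := by positivity
  have h2 := key L hL h k (δ / 4)
  have n1 : 1 - δ / 4 ≤ ‖h + (δ / 4) • k‖ := by
    have := norm_sub_norm_le h (-((δ / 4) • k))
    rw [norm_neg, norm_smul, hh, hk, Real.norm_eq_abs, abs_of_pos hs, sub_neg_eq_add] at this
    linarith
  have n2 : 1 - δ / 4 ≤ ‖h - (δ / 4) • k‖ := by
    have := norm_sub_norm_le h ((δ / 4) • k)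
    rw [norm_smul, hh, hk, Real.norm_eq_abs, abs_of_pos hs] at this
    linarith
  have n3 : 2 * (δ / 4 * ‖L k‖) ≤ ‖L h + (δ / 4) • L k‖ + ‖L h - (δ / 4) • L k‖ := by
    have e : (2 : ℝ) • ((δ / 4) • L k) = (L h + (δ / 4) • L k) - (L h - (δ / 4) • L k) := by
      rw [two_smul]; abel
    have h4 := norm_sub_le (L h + (δ / 4) • L k) (L h - (δ / 4) • L k)
    rw [← e, norm_smul, norm_smul, Real.norm_eq_abs, Real.norm_eq_abs, abs_of_pos hs] at h4
    simpa using h4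
  have n4 : inner ℝ (L h) h ≤ ‖L h‖ := by
    have := real_inner_le_norm (L h) h
    rwa [hh, mul_one] at this
  have n5 : inner ℝ (L k) k ≤ ‖L k‖ := by
    have := real_inner_le_norm (L k) k
    rwa [hk, mul_one] at this
  have hpos : 0 ≤ 1 - δ / 4 := by linarith
  have n6 : δ * ((1 - δ / 4) * (2 * (δ / 4 * ‖L k‖))) ≤
      δ * (‖L h + (δ / 4) • L k‖ * ‖h + (δ / 4) • k‖ +
        ‖L h - (δ / 4) • L k‖ * ‖h - (δ / 4) • k‖) := by
    apply mul_le_mul_of_nonneg_left _ hδ.le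
    calc (1 - δ / 4) * (2 * (δ / 4 * ‖L k‖)) ≤
        (1 - δ / 4) * (‖L h + (δ / 4) • L k‖ + ‖L h - (δ / 4) • L k‖) :=
          mul_le_mul_of_nonneg_left n3 hpos
      _ = ‖L h + (δ / 4) • L k‖ * (1 - δ / 4) + ‖L h - (δ / 4) • L k‖ * (1 - δ / 4) := by ring
      _ ≤ _ := by gcongr
  have n7 : 2 * (δ / 4) ^ 2 * inner ℝ (L k) k ≤ 2 * (δ / 4) ^ 2 * ‖L k‖ := by gcongr
  have hLk : 0 ≤ ‖L k‖ := norm_nonneg _
  have hd2 : δ ^ 3 * ‖L k‖ ≤ δ ^ 2 * ‖L k‖ := by
    apply mul_le_mul_of_nonneg_right _ hLk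
    calc δ ^ 3 = δ ^ 2 * δ := by ring
      _ ≤ δ ^ 2 * 1 := by gcongr
      _ = δ ^ 2 := by ring
  nlinarith

theorem path_det {n : ℕ} (L : E n →L[ℝ] E n)
    (hL : ∀ h, h ≠ 0 → 0 < inner ℝ (L h) h) : 0 < L.det := by
  by_contra hneg
  have hneg' : L.det ≤ 0 := not_lt.mp hneg
  let F : ℝ → (E n →L[ℝ] E n) := fun t => (1 - t) • L + t • ContinuousLinearMap.id ℝ (E n)
  have hF : Continuous F := by fun_prop
  have hdet : Continuous fun t => (F t).det := ContinuousLinearMap.continuous_det.comp hF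
  have h0 : (F 0).det ≤ 0 := by
    have : F 0 = L := by ext1 v; simp [F]
    rw [this]; exact hneg'
  have h1 : 0 ≤ (F 1).det := by
    have : F 1 = ContinuousLinearMap.id ℝ (E n) := by ext1 v; simp [F]
    rw [this]
    have : (ContinuousLinearMap.id ℝ (E n)).det = 1 := by
      simp [ContinuousLinearMap.det]
    rw [this]; norm_num
  obtain ⟨t, ht, hte⟩ := intermediate_value_Icc (zero_le_one (α := ℝ)) hdet.continuousOn
    (show (0 : ℝ) ∈ Icc _ _ from ⟨h0, h1⟩)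
  have hker : ∃ v : E n, v ≠ 0 ∧ F t v = 0 := by
    have hnu : LinearMap.det ((F t : E n →L[ℝ] E n) : E n →ₗ[ℝ] E n) = 0 := hte
    have := LinearMap.bot_lt_ker_of_det_eq_zero hnu
    obtain ⟨v, hv, hv0⟩ := (Submodule.ne_bot_iff _).mp this.ne'
    exact ⟨v, hv0, hv⟩
  obtain ⟨v, hv, hvt⟩ := hker
  have e : inner ℝ (F t v) v = (1 - t) * inner ℝ (L v) v + t * ‖v‖ ^ 2 := by
    simp only [F, add_apply, smul_apply,
      ContinuousLinearMap.id_apply, inner_add_left, real_inner_smul_left,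
      real_inner_self_eq_norm_sq]
  rw [hvt, inner_zero_left] at e
  have hv1 := hL v hv
  have hv2 : 0 < ‖v‖ ^ 2 := by have := norm_pos_iff.mpr hv; positivity
  rcases eq_or_lt_of_le ht.1 with h | h
  · rw [← h] at e; simp at e; rw [← e] at hv1; exact lt_irrefl _ hv1
  · have : 0 ≤ (1 - t) * inner ℝ (L v) v := mul_nonneg (by linarith [ht.2]) hv1.le
    have : 0 < t * ‖v‖ ^ 2 := by positivity
    linarith

theorem det_lower {n : ℕ} (L : E n →L[ℝ] E n) (m : ℝ) (hm : 0 < m)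
    (hL : ∀ h, m * ‖h‖ ≤ ‖L h‖) : m ^ n ≤ |L.det| := by
  have hinj : Function.Injective L := by
    intro a b hab
    have h1 := hL (a - b)
    rw [map_sub, hab, sub_self, norm_zero] at h1
    have h2 : ‖a - b‖ = 0 := by
      have := norm_nonneg (a - b)
      nlinarith
    exact sub_eq_zero.mp (norm_eq_zero.mp h2)
  have hsurj : Function.Surjective L :=
    LinearMap.surjective_of_injective (f := (L : E n →ₗ[ℝ] E n)) hinj
  have hsub : closedBall (0 : E n) m ⊆ L '' closedBall (0 : E n) 1 := by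
    intro y hy
    obtain ⟨x, rfl⟩ := hsurj y
    refine ⟨x, ?_, rfl⟩
    rw [mem_closedBall_zero_iff] at hy ⊢
    have := hL x
    have h3 : m * ‖x‖ ≤ m * 1 := by linarith
    exact le_of_mul_le_mul_left h3 hm
  have hmeas := measure_mono (μ := (volume : Measure (E n))) hsub
  rw [Measure.addHaar_image_continuousLinearMap, Measure.addHaar_closedBall' _ _ hm.le] at hmeas
  have hfin : (volume : Measure (E n)) (closedBall 0 1) ≠ ⊤ :=
    measure_closedBall_lt_top.ne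
  have hpos : (volume : Measure (E n)) (closedBall 0 1) ≠ 0 :=
    (measure_closedBall_pos _ _ one_pos).ne'
  have h4 := (ENNReal.mul_le_mul_iff_left hpos hfin).mp hmeas
  rw [finrank_euclideanSpace_fin] at h4
  have h5 := (ENNReal.ofReal_le_ofReal_iff (abs_nonneg _)).mp h4
  exact h5

theorem linMono : LinMonoStmt := by
  intro n hn δ hδ hδ1
  refine ⟨(8 / δ ^ 2) ^ n, ?_, ?_⟩
  · apply one_le_pow₀
    rw [le_div_iff₀ (by positivity)]
    nlinarith
  intro L hL hinj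
  have hpos : ∀ h, h ≠ 0 → 0 < inner ℝ (L h) h := by
    intro h hh
    have h1 : 0 < ‖L h‖ := norm_pos_iff.mpr (fun h0 => hh (hinj h h0))
    have h2 : 0 < ‖h‖ := norm_pos_iff.mpr hh
    have h3 := hL h
    have : 0 < δ * (‖L h‖ * ‖h‖) := by positivity
    linarith
  have hdet := path_det L hpos
  refine ⟨hdet, ?_⟩
  -- lower bound of `‖L h‖`
  have hlow : ∀ h : E n, δ ^ 2 / 8 * ‖L‖ * ‖h‖ ≤ ‖L h‖ := by
    intro h
    rcases eq_or_ne h 0 with rfl | hh
    · simp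
    have hh' : 0 < ‖h‖ := norm_pos_iff.mpr hh
    set u : E n := ‖h‖⁻¹ • h with hu
    have hu1 : ‖u‖ = 1 := by
      rw [hu, norm_smul, norm_inv, norm_norm]; field_simp
    have hub : ‖L‖ ≤ 8 / δ ^ 2 * ‖L u‖ := by
      refine ContinuousLinearMap.opNorm_le_bound _ (by positivity) ?_
      intro k
      rcases eq_or_ne k 0 with rfl | hk
      · simp
      have hk' : 0 < ‖k‖ := norm_pos_iff.mpr hk
      set w : E n := ‖k‖⁻¹ • k with hw
      have hw1 : ‖w‖ = 1 := by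
        rw [hw, norm_smul, norm_inv, norm_norm]; field_simp
      have h1 := lower hδ hδ1 L hL u w hu1 hw1
      have h2 : ‖L w‖ = ‖k‖⁻¹ * ‖L k‖ := by
        rw [hw, map_smul, norm_smul, norm_inv, norm_norm]
      have h3 : ‖L k‖ = ‖L w‖ * ‖k‖ := by rw [h2]; field_simp
      rw [h3]
      apply mul_le_mul_of_nonneg_right _ hk'.le
      rw [div_mul_eq_mul_div, le_div_iff₀ (by positivity)]
      linarith
    have h2 : ‖L u‖ = ‖h‖⁻¹ * ‖L h‖ := by
      rw [hu, map_smul, norm_smul, norm_inv, norm_norm]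
    have h3 : ‖L h‖ = ‖L u‖ * ‖h‖ := by rw [h2]; field_simp
    rw [h3]
    apply mul_le_mul_of_nonneg_right _ hh'.le
    rw [div_mul_eq_mul_div, le_div_iff₀ (by positivity)] at hub
    linarith
  rcases eq_or_lt_of_le (norm_nonneg L) with h0 | h0
  · rw [← h0, zero_pow (by omega)]
    positivity
  · have hm : 0 < δ ^ 2 / 8 * ‖L‖ := by positivity
    have h1 := det_lower L _ hm hlow
    rw [abs_of_pos hdet, mul_pow] at h1
    calc ‖L‖ ^ n = (8 / δ ^ 2) ^ n * ((δ ^ 2 / 8) ^ n * ‖L‖ ^ n) := by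
          rw [← mul_assoc, ← mul_pow]
          have : 8 / δ ^ 2 * (δ ^ 2 / 8) = 1 := by field_simp
          rw [this, one_pow, one_mul]
      _ ≤ _ := by gcongr

end H44QC

end Helper22QC
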