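import Pool.Agent.Helper22_QC.Stmt

/-! Modules LIN3, LIN4 and GRP: composition, inversion, group. -/

namespace Helper22QC

namespace H44QC

open Metric Set Filter Topology

theorem comp : CompStmt := by
  intro n K K' g g' hg hg'
  have hm : MapsTo g' (ball (0 : E n) 1) (ball 0 1) := hg'.bij.mapsTo
  have hdg : ∀ x ∈ ball (0 : E n) 1, DifferentiableAt ℝ g x := fun x hx =>
    (hg.smooth.contDiffAt (isOpen_ball.mem_nhds hx)).differentiableAt (by simp)
  have hdg' : ∀ x ∈ ball (0 : E n) 1, DifferentiableAt ℝ g' x := fun x hx =>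
    (hg'.smooth.contDiffAt (isOpen_ball.mem_nhds hx)).differentiableAt (by simp)
  have hf : ∀ x ∈ ball (0 : E n) 1,
      fderiv ℝ (g ∘ g') x = (fderiv ℝ g (g' x)).comp (fderiv ℝ g' x) := fun x hx =>
    fderiv_comp x (hdg _ (hm hx)) (hdg' x hx)
  have hdet : ∀ x ∈ ball (0 : E n) 1,
      (fderiv ℝ (g ∘ g') x).det = (fderiv ℝ g (g' x)).det * (fderiv ℝ g' x).det := by
    intro x hx
    rw [hf x hx]
    exact LinearMap.det_comp _ _
  refine ⟨hg.bij.comp hg'.bij, hg.smooth.comp hg'.smooth hm, ?_, ?_, ?_⟩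
  · have h1 : MapsTo (Function.invFunOn g (ball 0 1)) (ball (0 : E n) 1) (ball 0 1) :=
      hg.bij.surjOn.mapsTo_invFunOn
    have h2 : MapsTo (Function.invFunOn g' (ball 0 1)) (ball (0 : E n) 1) (ball 0 1) :=
      hg'.bij.surjOn.mapsTo_invFunOn
    refine (hg'.smooth_inv.comp hg.smooth_inv h1).congr ?_
    intro y hy
    have hbij := hg.bij.comp hg'.bij
    have h3 : Function.invFunOn (g ∘ g') (ball 0 1) y ∈ ball (0 : E n) 1 :=
      hbij.surjOn.mapsTo_invFunOn hy
    apply hbij.injOn h3 (h2 (h1 hy))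
    rw [Function.invFunOn_eq (hbij.surjOn hy)]
    simp only [Function.comp]
    rw [Function.invFunOn_eq (hg'.bij.surjOn (h1 hy)), Function.invFunOn_eq (hg.bij.surjOn hy)]
  · intro x hx
    rw [hdet x hx]
    exact mul_pos (hg.det_pos _ (hm hx)) (hg'.det_pos _ hx)
  · intro x hx
    rw [hdet x hx, hf x hx]
    have a1 := hg.dist _ (hm hx)
    have a2 := hg'.dist _ hx
    calc ‖(fderiv ℝ g (g' x)).comp (fderiv ℝ g' x)‖ ^ n
        ≤ (‖fderiv ℝ g (g' x)‖ * ‖fderiv ℝ g' x‖) ^ n :=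
          pow_le_pow_left₀ (norm_nonneg _) (ContinuousLinearMap.opNorm_comp_le _ _) _
      _ = ‖fderiv ℝ g (g' x)‖ ^ n * ‖fderiv ℝ g' x‖ ^ n := mul_pow _ _ _
      _ ≤ (K * (fderiv ℝ g (g' x)).det) * (K' * (fderiv ℝ g' x).det) :=
          mul_le_mul a1 a2 (by positivity) (le_trans (by positivity) a1)
      _ = _ := by ring

/-- Hadamard: the determinant is at most the product of the norms of the images of an
orthonormal basis. -/
theorem det_le_prod {n : ℕ} (A : E n →L[ℝ] E n) (b : OrthonormalBasis (Fin n) ℝ (E n)) :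
    |A.det| ≤ ∏ i, ‖A (b i)‖ := by
  classical
  have : Fact (Module.finrank ℝ (E n) = n) := ⟨finrank_euclideanSpace_fin⟩
  set o : Orientation ℝ (E n) (Fin n) := b.toBasis.orientation with ho
  have h1 := o.abs_volumeForm_apply_le (fun i => A (b i))
  rw [o.volumeForm_robust b ho.symm] at h1
  have h2 : b.toBasis.det (fun i => A (b i)) = A.det := by
    have := b.toBasis.det_comp (A : E n →ₗ[ℝ] E n) b.toBasis
    rw [b.toBasis.det_self, mul_one] at this
    rw [← OrthonormalBasis.coe_toBasis]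
    exact this
  rwa [h2] at h1

theorem det_le_apply {n : ℕ} (hn : 1 ≤ n) (A : E n →L[ℝ] E n) (h : E n) (hh : ‖h‖ = 1) :
    |A.det| ≤ ‖A h‖ * ‖A‖ ^ (n - 1) := by
  classical
  obtain ⟨m, rfl⟩ : ∃ m, n = m + 1 := ⟨n - 1, by omega⟩
  have ho : Orthonormal ℝ (Set.domRestrict {(0 : Fin (m + 1))} (fun _ : Fin (m + 1) => h)) := by
    constructor
    · rintro ⟨i, hi⟩; exact hh
    · rintro ⟨i, hi⟩ ⟨j, hj⟩ hij
      exfalso; apply hij
      simp only [mem_singleton_iff] at hi hj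
      subst hi; subst hj; rfl
  obtain ⟨b, hb⟩ := ho.exists_orthonormalBasis_extension_of_card_eq
    (by simp : Module.finrank ℝ (E (m + 1)) = Fintype.card (Fin (m + 1)))
  have hb0 : b 0 = h := hb 0 (by simp)
  have h1 := det_le_prod A b
  rw [Fin.prod_univ_succ, hb0] at h1
  refine h1.trans ?_
  apply mul_le_mul_of_nonneg_left _ (norm_nonneg _)
  calc ∏ i : Fin m, ‖A (b i.succ)‖ ≤ ∏ _i : Fin m, ‖A‖ := by
        apply Finset.prod_le_prod (fun i _ => norm_nonneg _)
        intro i _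
        have := A.le_opNorm (b i.succ)
        rwa [b.norm_eq_one, mul_one] at this
    _ = ‖A‖ ^ (m + 1 - 1) := by simp

theorem inv_dist {n : ℕ} (hn : 1 ≤ n) {K : ℝ} (A B : E n →L[ℝ] E n)
    (hAB : A.comp B = ContinuousLinearMap.id ℝ (E n))
    (hdet : A.det * B.det = 1) (hA : 0 < A.det) (hK : ‖A‖ ^ n ≤ K * A.det) :
    ‖B‖ ^ n ≤ K ^ (n - 1) * B.det := by
  have hB : 0 < B.det := by
    by_contra h
    have := mul_nonpos_of_nonneg_of_nonpos hA.le (not_lt.mp h)
    linarith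
  -- `‖B‖ * det A ≤ ‖A‖ ^ (n - 1)`
  have h1 : ‖B‖ ≤ ‖A‖ ^ (n - 1) * B.det := by
    refine ContinuousLinearMap.opNorm_le_bound _ (by positivity) ?_
    intro k
    rcases eq_or_ne (B k) 0 with h0 | h0
    · rw [h0, norm_zero]; positivity
    have hb : 0 < ‖B k‖ := norm_pos_iff.mpr h0
    have h2 := det_le_apply hn A (‖B k‖⁻¹ • B k) (by
      rw [norm_smul, norm_inv, norm_norm]; field_simp)
    have h3 : A (B k) = k := by
      have := congrArg (fun T : E n →L[ℝ] E n => T k) hAB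
      simpa using this
    rw [map_smul, h3, norm_smul, norm_inv, norm_norm, abs_of_pos hA] at h2
    have h4 : A.det * ‖B k‖ ≤ ‖k‖ * ‖A‖ ^ (n - 1) := by
      calc A.det * ‖B k‖ ≤ (‖B k‖⁻¹ * ‖k‖ * ‖A‖ ^ (n - 1)) * ‖B k‖ :=
            mul_le_mul_of_nonneg_right h2 hb.le
        _ = _ := by field_simp
    calc ‖B k‖ = (A.det * ‖B k‖) * B.det := by
          rw [mul_right_comm, hdet, one_mul]
      _ ≤ (‖k‖ * ‖A‖ ^ (n - 1)) * B.det := mul_le_mul_of_nonneg_right h4 hB.le
      _ = _ := by ring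
  have h5 : ‖B‖ ^ n ≤ (‖A‖ ^ (n - 1) * B.det) ^ n := pow_le_pow_left₀ (norm_nonneg _) h1 _
  have h6 : (‖A‖ ^ (n - 1) * B.det) ^ n = (‖A‖ ^ n) ^ (n - 1) * B.det ^ n := by
    rw [mul_pow, ← pow_mul, ← pow_mul, mul_comm (n - 1) n]
  have h7 : (‖A‖ ^ n) ^ (n - 1) ≤ (K * A.det) ^ (n - 1) := pow_le_pow_left₀ (by positivity) hK _
  calc ‖B‖ ^ n ≤ (‖A‖ ^ n) ^ (n - 1) * B.det ^ n := by rw [← h6]; exact h5
    _ ≤ (K * A.det) ^ (n - 1) * B.det ^ n := mul_le_mul_of_nonneg_right h7 (by positivity)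
    _ = K ^ (n - 1) * ((A.det * B.det) ^ (n - 1) * B.det) := by
        obtain ⟨m, rfl⟩ : ∃ m, n = m + 1 := ⟨n - 1, by omega⟩
        simp only [Nat.add_sub_cancel]
        ring
    _ = _ := by rw [hdet, one_pow, one_mul]

theorem inv : InvStmt := by
  intro n K
  refine ⟨K ^ (n - 1), ?_⟩
  intro g hg
  set gi := Function.invFunOn g (ball (0 : E n) 1) with hgi
  have h1 : MapsTo gi (ball (0 : E n) 1) (ball 0 1) := hg.bij.surjOn.mapsTo_invFunOn
  have hinv : InvOn gi g (ball 0 1) (ball 0 1) := hg.bij.invOn_invFunOn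
  have hbi : BijOn gi (ball (0 : E n) 1) (ball 0 1) := hinv.symm.bijOn h1 hg.bij.mapsTo
  have hdg : ∀ x ∈ ball (0 : E n) 1, DifferentiableAt ℝ g x := fun x hx =>
    (hg.smooth.contDiffAt (isOpen_ball.mem_nhds hx)).differentiableAt (by simp)
  have hdgi : ∀ x ∈ ball (0 : E n) 1, DifferentiableAt ℝ gi x := fun x hx =>
    (hg.smooth_inv.contDiffAt (isOpen_ball.mem_nhds hx)).differentiableAt (by simp)
  have hcomp : ∀ y ∈ ball (0 : E n) 1,
      (fderiv ℝ g (gi y)).comp (fderiv ℝ gi y) = ContinuousLinearMap.id ℝ (E n) := by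
    intro y hy
    rw [← fderiv_comp y (hdg _ (h1 hy)) (hdgi y hy)]
    have : (g ∘ gi) =ᶠ[𝓝 y] id := by
      filter_upwards [isOpen_ball.mem_nhds hy] with z hz
      exact hinv.2 hz
    rw [this.fderiv_eq, fderiv_id]
  have hdet : ∀ y ∈ ball (0 : E n) 1, (fderiv ℝ g (gi y)).det * (fderiv ℝ gi y).det = 1 := by
    intro y hy
    have h2 : ((fderiv ℝ g (gi y)).comp (fderiv ℝ gi y)).det = 1 := by
      rw [hcomp y hy]; simp [ContinuousLinearMap.det]
    rw [← h2]
    exact (LinearMap.det_comp _ _).symm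
  refine ⟨hbi, hg.smooth_inv, ?_, ?_, ?_⟩
  · refine hg.smooth.congr ?_
    intro x hx
    have h3 : Function.invFunOn gi (ball 0 1) x ∈ ball (0 : E n) 1 :=
      hbi.surjOn.mapsTo_invFunOn hx
    apply hbi.injOn h3 (hg.bij.mapsTo hx)
    rw [Function.invFunOn_eq (hbi.surjOn hx), hinv.1 hx]
  · intro y hy
    have a := hg.det_pos _ (h1 hy)
    by_contra h
    have := mul_nonpos_of_nonneg_of_nonpos a.le (not_lt.mp h)
    rw [hdet y hy] at this
    linarith
  · intro y hy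
    rcases Nat.eq_zero_or_pos n with hn | hn
    · subst hn
      have : (fderiv ℝ gi y).det = 1 := by
        have hs : Subsingleton (E 0) := inferInstance
        have : fderiv ℝ gi y = ContinuousLinearMap.id ℝ (E 0) := by
          ext1 v; exact Subsingleton.elim _ _
        rw [this]; simp [ContinuousLinearMap.det]
      rw [this]; simp
    · exact inv_dist hn _ _ (hcomp y hy) (hdet y hy) (hg.det_pos _ (h1 hy)) (hg.dist _ (h1 hy))

theorem id_qc {n : ℕ} : QCDiffeo 1 (id : E n → E n) := by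
  refine ⟨bijOn_id _, contDiffOn_id, ?_, ?_, ?_⟩
  · refine contDiffOn_id.congr ?_
    intro x hx
    have : Function.invFunOn id (ball (0 : E n) 1) x = x := by
      have := Function.invFunOn_eq (f := (id : E n → E n)) (s := ball (0 : E n) 1) (b := x)
        ⟨x, hx, rfl⟩
      simpa using this
    simpa using this
  · intro x _
    rw [fderiv_id]; simp [ContinuousLinearMap.det]
  · intro x _
    rw [fderiv_id]
    have h1 : (ContinuousLinearMap.id ℝ (E n)).det = 1 := by simp [ContinuousLinearMap.det]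
    rw [h1, one_mul]
    exact pow_le_one₀ (norm_nonneg _) ContinuousLinearMap.norm_id_le

theorem approx_mul {n : ℕ} {K K' : ℝ} {f f' : closedBall (0 : E n) 1 ≃ₜ closedBall (0 : E n) 1}
    (hf : Approx K f) (hf' : Approx K' f') : Approx (K * K') (f * f') := by
  intro η hη
  have : CompactSpace (closedBall (0 : E n) 1) :=
    isCompact_iff_compactSpace.mp (isCompact_closedBall _ _)
  have huc : UniformContinuous f := CompactSpace.uniformContinuous_of_continuous f.continuous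
  obtain ⟨δ, hδ, hδ'⟩ := Metric.uniformContinuous_iff.mp huc (η / 2) (by positivity)
  obtain ⟨g, hg, hga⟩ := hf (η / 2) (by positivity)
  obtain ⟨g', hg', hga'⟩ := hf' (δ / 2) (by positivity)
  refine ⟨g ∘ g', comp n K K' g g' hg hg', ?_⟩
  intro x hx
  have hgx : g' x ∈ ball (0 : E n) 1 := hg'.bij.mapsTo hx
  have hgx' : g' x ∈ closedBall (0 : E n) 1 := ball_subset_closedBall hgx
  have h1 := hga ⟨g' x, hgx'⟩ hgx
  have h2 : dist (⟨g' x, hgx'⟩ : closedBall (0 : E n) 1) (f' x) < δ := by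
    rw [Subtype.dist_eq, dist_eq_norm]
    exact lt_of_le_of_lt (hga' x hx) (by linarith)
  have h3 := hδ' h2
  rw [Subtype.dist_eq, dist_eq_norm] at h3
  have h4 : (((f * f') x : closedBall (0 : E n) 1) : E n) = (f (f' x) : E n) := rfl
  rw [h4]
  calc ‖(g ∘ g') x - f (f' x)‖ = ‖(g (g' x) - f ⟨g' x, hgx'⟩) +
        ((f ⟨g' x, hgx'⟩ : E n) - f (f' x))‖ := by simp [Function.comp]
    _ ≤ ‖g (g' x) - f ⟨g' x, hgx'⟩‖ + ‖(f ⟨g' x, hgx'⟩ : E n) - f (f' x)‖ := norm_add_le _ _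
    _ ≤ η / 2 + η / 2 := add_le_add h1 h3.le
    _ = η := by ring

theorem approx_inv {n : ℕ} {K : ℝ} {f : closedBall (0 : E n) 1 ≃ₜ closedBall (0 : E n) 1}
    (hf : Approx K f) : ∃ K', Approx K' f⁻¹ := by
  obtain ⟨K', hK'⟩ := inv n K
  refine ⟨K', ?_⟩
  intro η hη
  have : CompactSpace (closedBall (0 : E n) 1) :=
    isCompact_iff_compactSpace.mp (isCompact_closedBall _ _)
  have huc : UniformContinuous f.symm :=
    CompactSpace.uniformContinuous_of_continuous f.symm.continuous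
  obtain ⟨δ, hδ, hδ'⟩ := Metric.uniformContinuous_iff.mp huc η hη
  obtain ⟨g, hg, hga⟩ := hf (δ / 2) (by positivity)
  refine ⟨Function.invFunOn g (ball 0 1), hK' g hg, ?_⟩
  intro y hy
  set x := Function.invFunOn g (ball (0 : E n) 1) y with hx
  have hxb : x ∈ ball (0 : E n) 1 := hg.bij.surjOn.mapsTo_invFunOn hy
  have hxc : x ∈ closedBall (0 : E n) 1 := ball_subset_closedBall hxb
  have hgx : g x = y := Function.invFunOn_eq (hg.bij.surjOn hy)
  have h1 := hga ⟨x, hxc⟩ hxb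
  have h1' : ‖(y : E n) - f ⟨x, hxc⟩‖ ≤ δ / 2 := by rw [← hgx]; exact h1
  have h2 : dist (f ⟨x, hxc⟩) y < δ := by
    rw [dist_comm, Subtype.dist_eq, dist_eq_norm]
    exact lt_of_le_of_lt h1' (by linarith)
  have h3 := hδ' h2
  rw [f.symm_apply_apply, Subtype.dist_eq, dist_eq_norm] at h3
  exact h3.le

theorem group : GroupStmt := by
  intro n
  have h1 : ∃ K, Approx K (1 : closedBall (0 : E n) 1 ≃ₜ closedBall (0 : E n) 1) := by
    refine ⟨1, ?_⟩
    intro η hη
    exact ⟨id, id_qc, fun x _ => by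
      have : (((1 : closedBall (0 : E n) 1 ≃ₜ closedBall (0 : E n) 1) x : closedBall (0 : E n) 1)
        : E n) = x := rfl
      rw [this]; simpa using hη.le⟩
  exact ⟨{ carrier := {f | ∃ K, Approx K f}
           one_mem' := h1
           mul_mem' := fun {f f'} ⟨K, hf⟩ ⟨K', hf'⟩ => ⟨K * K', approx_mul hf hf'⟩
           inv_mem' := fun {f} ⟨K, hf⟩ => approx_inv hf }, fun f => Iff.rfl⟩

end H44QC

end Helper22QC
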