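import Pool.Agent.Helper22_QC.StmtB
import Pool.Agent.Helper44_QC.Lin

/-! Modules KER, TOP, DETB. -/

namespace Helper22QC

namespace H44QC

open Metric Set Filter Topology MeasureTheory

theorem detB : DetBStmt := by
  intro n H L A m hm hdet hLH hLm hA
  have hAm : ∀ v, m / 2 * ‖v‖ ≤ ‖A v‖ := by
    intro v
    have h1 := hLm v
    have h2 := hA v
    have h3 : ‖L v‖ ≤ ‖A v‖ + ‖A v - L v‖ := by
      have : L v = A v - (A v - L v) := by abel
      calc ‖L v‖ = ‖A v - (A v - L v)‖ := by rw [← this]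
        _ ≤ _ := norm_sub_le _ _
    linarith
  have hinj : ∀ v, A v = 0 → v = 0 := by
    intro v hv
    have h1 := hAm v
    rw [hv, norm_zero] at h1
    have h2 : ‖v‖ ≤ 0 := by
      by_contra h
      push Not at h
      have : 0 < m / 2 * ‖v‖ := by positivity
      linarith
    exact norm_le_zero_iff.mp h2
  -- positivity of the determinant
  have hpos : 0 < A.det := by
    by_contra hneg
    have hneg' : A.det ≤ 0 := not_lt.mp hneg
    let F : ℝ → (E n →L[ℝ] E n) := fun t => L + t • (A - L)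
    have hF : Continuous F := by fun_prop
    have hdetc : Continuous fun t => (F t).det := ContinuousLinearMap.continuous_det.comp hF
    have h0 : 0 ≤ (F 0).det := by
      have : F 0 = L := by ext1 v; simp [F]
      rw [this]; exact hdet.le
    have h1 : (F 1).det ≤ 0 := by
      have : F 1 = A := by ext1 v; simp [F]
      rw [this]; exact hneg'
    obtain ⟨t, ht, hte⟩ := intermediate_value_Icc' (zero_le_one (α := ℝ)) hdetc.continuousOn
      (show (0 : ℝ) ∈ Icc _ _ from ⟨h1, h0⟩)
    have hker : ∃ v : E n, v ≠ 0 ∧ F t v = 0 := by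
      have hnu : LinearMap.det ((F t : E n →L[ℝ] E n) : E n →ₗ[ℝ] E n) = 0 := hte
      have := LinearMap.bot_lt_ker_of_det_eq_zero hnu
      obtain ⟨v, hv, hv0⟩ := (Submodule.ne_bot_iff _).mp this.ne'
      exact ⟨v, hv0, hv⟩
    obtain ⟨v, hv, hvt⟩ := hker
    have e1 : L v = -(t • (A v - L v)) := by
      have e2 : F t v = L v + t • (A v - L v) := by
        simp only [F, add_apply, smul_apply, sub_apply]
      rw [e2] at hvt
      exact eq_neg_of_add_eq_zero_left hvt
    have h2 : ‖L v‖ ≤ m / 2 * ‖v‖ := by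
      rw [e1, norm_neg, norm_smul, Real.norm_eq_abs, abs_of_nonneg ht.1]
      calc t * ‖A v - L v‖ ≤ 1 * (m / 2 * ‖v‖) := by
            apply mul_le_mul ht.2 (hA v) (norm_nonneg _) zero_le_one
        _ = _ := one_mul _
    have h3 := hLm v
    have h4 : 0 < ‖v‖ := norm_pos_iff.mpr hv
    have h5 : 0 < m / 2 * ‖v‖ := by positivity
    linarith
  refine ⟨hinj, hpos, ?_⟩
  have hH : 0 ≤ H := by
    by_contra h
    push Not at h
    have h1 := norm_nonneg L
    have h2 : H * m < 0 := mul_neg_of_neg_of_pos h hm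
    linarith
  have h1 := det_lower A (m / 2) (by positivity) hAm
  rw [abs_of_pos hpos] at h1
  have h2 : ‖A‖ ≤ (2 * H + 1) * (m / 2) := by
    refine ContinuousLinearMap.opNorm_le_bound _ (by positivity) ?_
    intro v
    have e : A v = L v + (A v - L v) := by abel
    calc ‖A v‖ = ‖L v + (A v - L v)‖ := by rw [← e]
      _ ≤ ‖L v‖ + ‖A v - L v‖ := norm_add_le _ _
      _ ≤ H * m * ‖v‖ + m / 2 * ‖v‖ := by
          apply add_le_add _ (hA v)
          exact (L.le_opNorm v).trans (mul_le_mul_of_nonneg_right hLH (norm_nonneg _))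
      _ = _ := by ring
  calc ‖A‖ ^ n ≤ ((2 * H + 1) * (m / 2)) ^ n := pow_le_pow_left₀ (norm_nonneg _) h2 _
    _ = (2 * H + 1) ^ n * (m / 2) ^ n := mul_pow _ _ _
    _ ≤ _ := by gcongr

theorem topM : TopStmt := by
  intro n f x r l hr hxr hs y hy
  by_contra hlt
  push Not at hlt
  set S : Set (closedBall (0 : E n) 1) := {z | ‖(z : E n) - f x‖ < l} with hS
  have hSpre : IsPreconnected S := by
    rw [← Topology.IsInducing.subtypeVal.isPreconnected_image]
    have : Subtype.val '' S = ball (f x : E n) l ∩ closedBall 0 1 := by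
      ext z
      constructor
      · rintro ⟨w, hw, rfl⟩
        exact ⟨by rw [mem_ball, dist_eq_norm]; exact hw, w.2⟩
      · rintro ⟨h1, h2⟩
        refine ⟨⟨z, h2⟩, ?_, rfl⟩
        rw [mem_ball, dist_eq_norm] at h1
        exact h1
    rw [this]
    exact ((convex_ball _ _).inter (convex_closedBall _ _)).isPreconnected
  have hS' : IsPreconnected (f.symm '' S) := hSpre.image _ f.symm.continuous.continuousOn
  have hl : 0 < l := lt_of_le_of_lt (norm_nonneg _) hlt
  have hx : x ∈ f.symm '' S := ⟨f x, by simp [hS, hl], by simp⟩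
  have hy' : y ∈ f.symm '' S := ⟨f y, hlt, by simp⟩
  have hc : ContinuousOn (fun z : closedBall (0 : E n) 1 => ‖(z : E n) - x‖) (f.symm '' S) := by
    fun_prop
  have h1 := hS'.intermediate_value hx hy' hc
  have h2 : r ∈ Icc (‖(x : E n) - x‖) (‖(y : E n) - x‖) := ⟨by simp [hr.le], hy⟩
  obtain ⟨z, ⟨w, hw, hwz⟩, hz⟩ := h1 h2
  have h3 := hs z hz
  rw [← hwz, f.apply_symm_apply] at h3
  exact absurd hw (not_lt.mpr h3)

theorem pow_sub (n : ℕ) {q : ℝ} (h1 : 1 / 2 ≤ q) (h2 : q ≤ 2) :
    |q ^ n - 1| ≤ n * 2 ^ n * |q - 1| := by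
  induction n with
  | zero => simp
  | succ k ih =>
    have e : q ^ (k + 1) - 1 = q * (q ^ k - 1) + (q - 1) := by ring
    rw [e]
    have hq : |q| ≤ 2 := abs_le.mpr ⟨by linarith, h2⟩
    calc |q * (q ^ k - 1) + (q - 1)| ≤ |q * (q ^ k - 1)| + |q - 1| := abs_add_le _ _
      _ = |q| * |q ^ k - 1| + |q - 1| := by rw [abs_mul]
      _ ≤ 2 * (k * 2 ^ k * |q - 1|) + |q - 1| := by gcongr
      _ ≤ ((k + 1 : ℕ) : ℝ) * 2 ^ (k + 1) * |q - 1| := by
          have h3 : (1 : ℝ) ≤ 2 ^ (k + 1) := one_le_pow₀ (by norm_num)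
          have h4 := abs_nonneg (q - 1)
          push_cast
          have e2 : (2 : ℝ) * (k * 2 ^ k * |q - 1|) + |q - 1| =
              (k * 2 ^ (k + 1) + 1) * |q - 1| := by ring
          rw [e2]
          apply mul_le_mul_of_nonneg_right _ h4
          nlinarith

theorem ker : KerStmt := by
  intro n
  have hcs : HasCompactSupport (ph n) := (bump n).hasCompactSupport_normed
  obtain ⟨Lp, hLp⟩ := (ph_smooth (n := n)).lipschitzWith_of_hasCompactSupport hcs (by simp)
  obtain ⟨Bd, hBd⟩ := hcs.exists_bound_of_continuous ph_cont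
  have hBd0 : 0 ≤ Bd := (norm_nonneg _).trans (hBd 0)
  set C0 : ℝ := n * 2 ^ n * Bd + 4 * Lp + Lp + 1 with hC0
  have hC0p : 0 < C0 := by positivity
  refine ⟨C0 * (volume.real (closedBall (0 : E n) 3) + 1), by positivity, ?_⟩
  intro a q ha hq1 hq2
  have hz : ∀ y : E n, y ∉ closedBall (0 : E n) 3 → |q ^ n * ph n (q • (y + a)) - ph n y| = 0 := by
    intro y hy
    rw [mem_closedBall_zero_iff, not_le] at hy
    have e1 : ph n y = 0 := ph_zero (by linarith)
    have e2 : ph n (q • (y + a)) = 0 := by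
      apply ph_zero
      rw [norm_smul, Real.norm_eq_abs, abs_of_pos (by linarith)]
      have h1 : ‖y‖ - ‖a‖ ≤ ‖y + a‖ := by
        have := norm_sub_norm_le y (-a)
        rwa [norm_neg, sub_neg_eq_add] at this
      have h2 : 2 ≤ ‖y + a‖ := by linarith
      nlinarith
    rw [e1, e2]; simp
  have hb : ∀ y ∈ closedBall (0 : E n) 3,
      ‖|q ^ n * ph n (q • (y + a)) - ph n y|‖ ≤ C0 * (‖a‖ + |q - 1|) := by
    intro y hy
    rw [mem_closedBall_zero_iff] at hy
    rw [Real.norm_eq_abs, abs_abs]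
    have h1 : |ph n (q • (y + a))| ≤ Bd := by
      have := hBd (q • (y + a))
      rwa [Real.norm_eq_abs] at this
    have h2 : |ph n (q • (y + a)) - ph n y| ≤ Lp * ‖q • (y + a) - y‖ := by
      have := hLp.norm_sub_le (q • (y + a)) y
      rwa [Real.norm_eq_abs] at this
    have h3 : ‖q • (y + a) - y‖ ≤ |q - 1| * 4 + ‖a‖ := by
      have e : q • (y + a) - y = (q - 1) • (y + a) + a := by
        rw [sub_smul, one_smul]; abel
      rw [e]
      refine (norm_add_le _ _).trans ?_
      rw [norm_smul, Real.norm_eq_abs]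
      have h4 : ‖y + a‖ ≤ 4 := (norm_add_le _ _).trans (by linarith)
      gcongr
    have e : q ^ n * ph n (q • (y + a)) - ph n y =
        (q ^ n - 1) * ph n (q • (y + a)) + (ph n (q • (y + a)) - ph n y) := by ring
    rw [e]
    calc |(q ^ n - 1) * ph n (q • (y + a)) + (ph n (q • (y + a)) - ph n y)|
        ≤ |q ^ n - 1| * |ph n (q • (y + a))| + |ph n (q • (y + a)) - ph n y| := by
          refine (abs_add_le _ _).trans ?_
          rw [abs_mul]
      _ ≤ (n * 2 ^ n * |q - 1|) * Bd + Lp * (|q - 1| * 4 + ‖a‖) := by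
          have h5 := pow_sub n hq1 hq2
          have h6 : Lp * ‖q • (y + a) - y‖ ≤ Lp * (|q - 1| * 4 + ‖a‖) := by gcongr
          have h7 : |q ^ n - 1| * |ph n (q • (y + a))| ≤ (n * 2 ^ n * |q - 1|) * Bd := by
            gcongr
          linarith
      _ ≤ _ := by
          have h8 := abs_nonneg (q - 1)
          have h9 := norm_nonneg a
          have h10 : (0 : ℝ) ≤ Lp := Lp.2
          have h11 : 0 ≤ (n : ℝ) * 2 ^ n * Bd := by positivity
          rw [hC0]
          nlinarith
  rw [← setIntegral_eq_integral_of_forall_compl_eq_zero hz]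
  have hfin : (volume : Measure (E n)) (closedBall 0 3) < ⊤ := measure_closedBall_lt_top
  have h1 := norm_setIntegral_le_of_norm_le_const hfin hb
  have h2 : ∫ y in closedBall (0 : E n) 3, |q ^ n * ph n (q • (y + a)) - ph n y| ≤
      C0 * (‖a‖ + |q - 1|) * volume.real (closedBall (0 : E n) 3) :=
    (le_abs_self _).trans h1
  refine h2.trans ?_
  have h3 : 0 ≤ C0 * (‖a‖ + |q - 1|) := by positivity
  nlinarith

end H44QC

end Helper22QC
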